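import Pool.Agent.W188.GP.Stm

set_option autoImplicit false
set_option linter.all false

namespace Pool.Agent.W918.GP

open Pool.Agent.W188.GP

theorem hk_zero : hk 0 = 0 := by simp [hk]

theorem hk_ne {j : ℤ} (h : j ≠ 0) : hk j = 1 / (j : ℂ) := by simp [hk, h]

theorem key (m n k : ℤ) : hk (m - n) * hk (m - k) = (if n = k then hk (m - n) ^ 2 else 0) +
    hk (n - k) * hk (m - n) + hk (k - n) * hk (m - k) + (if n = m then hk (m - k) ^ 2 else 0) +
    (if k = m then hk (m - n) ^ 2 else 0) := by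
  rcases eq_or_ne n k with rfl | hnk
  · rcases eq_or_ne n m with rfl | hnm
    · simp [hk_zero]
    · simp [hk_zero, hnm]
      ring
  · rcases eq_or_ne n m with rfl | hnm
    · have h1 : k ≠ n := hnk.symm
      simp only [sub_self, hk_zero, hnk, h1, if_false, if_true]
      have e1 : hk (k - n) = - hk (n - k) := by
        rw [hk_ne (sub_ne_zero.2 h1), hk_ne (sub_ne_zero.2 hnk)]
        push_cast
        have a1 : (k : ℂ) - n ≠ 0 := by exact_mod_cast sub_ne_zero.2 h1
        have a2 : (n : ℂ) - k ≠ 0 := by exact_mod_cast sub_ne_zero.2 hnk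
        field_simp
        ring
      rw [e1]
      ring
    · rcases eq_or_ne k m with rfl | hkm
      · simp only [sub_self, hk_zero, hnk, if_false, if_true]
        have e1 : hk (n - k) = - hk (k - n) := by
          rw [hk_ne (sub_ne_zero.2 hnk), hk_ne (sub_ne_zero.2 hnk.symm)]
          push_cast
          have a1 : (k : ℂ) - n ≠ 0 := by exact_mod_cast sub_ne_zero.2 hnk.symm
          have a2 : (n : ℂ) - k ≠ 0 := by exact_mod_cast sub_ne_zero.2 hnk
          field_simp
          ring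
        rw [e1]
        ring
      · simp only [hnk, hnm, hkm, if_false]
        rw [hk_ne (sub_ne_zero.2 hnk), hk_ne (sub_ne_zero.2 hnk.symm), hk_ne (sub_ne_zero.2 hnm.symm),
          hk_ne (sub_ne_zero.2 hkm.symm)]
        push_cast
        have a1 : (k : ℂ) - n ≠ 0 := by exact_mod_cast sub_ne_zero.2 hnk.symm
        have a2 : (n : ℂ) - k ≠ 0 := by exact_mod_cast sub_ne_zero.2 hnk
        have a3 : (m : ℂ) - n ≠ 0 := by exact_mod_cast sub_ne_zero.2 hnm.symm
        have a4 : (m : ℂ) - k ≠ 0 := by exact_mod_cast sub_ne_zero.2 hkm.symm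
        field_simp
        ring

theorem gp_cot : StCot := by
  intro S a m
  have e0 : HT S a m ^ 2 = ∑ n ∈ S, ∑ k ∈ S, a n * a k * (hk (m - n) * hk (m - k)) := by
    unfold HT
    rw [sq, Finset.sum_mul_sum]
    refine Finset.sum_congr rfl fun n _ => Finset.sum_congr rfl fun k _ => ?_
    ring
  have e1 : ∑ n ∈ S, ∑ k ∈ S, a n * a k * (if n = k then hk (m - n) ^ 2 else 0) =
      ∑ n ∈ S, a n ^ 2 * hk (m - n) ^ 2 := by
    refine Finset.sum_congr rfl fun n hn => ?_
    simp only [mul_ite, mul_zero, Finset.sum_ite_eq, hn, if_true]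
    ring
  have e2 : ∑ n ∈ S, ∑ k ∈ S, a n * a k * (hk (n - k) * hk (m - n)) =
      ∑ n ∈ S, a n * HT S a n * hk (m - n) := by
    refine Finset.sum_congr rfl fun n hn => ?_
    unfold HT
    rw [Finset.mul_sum, Finset.sum_mul]
    refine Finset.sum_congr rfl fun k _ => ?_
    ring
  have e3 : ∑ n ∈ S, ∑ k ∈ S, a n * a k * (hk (k - n) * hk (m - k)) =
      ∑ n ∈ S, a n * HT S a n * hk (m - n) := by
    rw [Finset.sum_comm]
    refine Finset.sum_congr rfl fun n hn => ?_
    unfold HT
    rw [Finset.mul_sum, Finset.sum_mul]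
    refine Finset.sum_congr rfl fun k _ => ?_
    ring
  have e4 : ∑ n ∈ S, ∑ k ∈ S, a n * a k * (if n = m then hk (m - k) ^ 2 else 0) =
      (if m ∈ S then a m else 0) * ∑ n ∈ S, a n * hk (m - n) ^ 2 := by
    have : ∀ n ∈ S, ∑ k ∈ S, a n * a k * (if n = m then hk (m - k) ^ 2 else 0) =
        if n = m then a n * ∑ k ∈ S, a k * hk (m - k) ^ 2 else 0 := by
      intro n _
      split_ifs with h
      · rw [Finset.mul_sum]
        refine Finset.sum_congr rfl fun k _ => ?_
        ring
      · simp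
    rw [Finset.sum_congr rfl this, Finset.sum_ite_eq']
    split_ifs <;> simp
  have e5 : ∑ n ∈ S, ∑ k ∈ S, a n * a k * (if k = m then hk (m - n) ^ 2 else 0) =
      (if m ∈ S then a m else 0) * ∑ n ∈ S, a n * hk (m - n) ^ 2 := by
    rw [← e4, Finset.sum_comm]
    refine Finset.sum_congr rfl fun n _ => Finset.sum_congr rfl fun k _ => ?_
    ring
  rw [e0]
  have e6 : ∑ n ∈ S, ∑ k ∈ S, a n * a k * (hk (m - n) * hk (m - k)) =
      ∑ n ∈ S, ∑ k ∈ S, a n * a k * (if n = k then hk (m - n) ^ 2 else 0) +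
      ∑ n ∈ S, ∑ k ∈ S, a n * a k * (hk (n - k) * hk (m - n)) +
      ∑ n ∈ S, ∑ k ∈ S, a n * a k * (hk (k - n) * hk (m - k)) +
      ∑ n ∈ S, ∑ k ∈ S, a n * a k * (if n = m then hk (m - k) ^ 2 else 0) +
      ∑ n ∈ S, ∑ k ∈ S, a n * a k * (if k = m then hk (m - n) ^ 2 else 0) := by
    simp only [← Finset.sum_add_distrib]
    refine Finset.sum_congr rfl fun n _ => Finset.sum_congr rfl fun k _ => ?_
    rw [key m n k]
    ring
  rw [e6, e1, e2, e3, e4, e5]
  ring

end Pool.Agent.W918.GP
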